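import Pool.Agent.P8H28.QS.Fin3

/-!
# The common `ℚ`-form of the `ℓ`-adic monodromy groups exists if it exists for the symmetric square

Let `A` be an abelian variety of dimension `g` over a number field `F`, `V = H_1(A(ℂ), ℚ)` with a
basis indexed by `ι`, `ψ` the matrix of a Riemann form, `E` the set of the matrices of the
endomorphisms of `A` over the algebraic closure of `F`, `Γ` the absolute Galois group of `F`, `ρ ℓ`
its representation on `V_ℓ = V ⊗ ℚ_ℓ` and `χ ℓ` the cyclotomic character. The following theorems are
known, and they are hypotheses below, for `ℓ ≥ ℓ₀`: `Known` (Weil pairing, Faltings, Hodge-Tate, Pink;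
this is the structure of the starting file `LefschetzForm`), the theorem of Bogomolov on the
homotheties, the semisimplicity of `V_ℓ ⊗ V_ℓ` (Faltings, Chevalley) and, only if the centre of the
endomorphism algebra is not self-adjoint (factors of type IV), the theorem of Vasiu and Ullmo-Yafaev
that the centre of the Lie algebra of the monodromy group has a `ℚ`-form, which is the same for all
`ℓ` (the centre of the Lie algebra of the Mumford-Tate group).

The endomorphisms of the symmetric square of `V_ℓ` are written as matrices with rows and columns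
indexed by the pairs `Fin 2 → ι` of indices (`OnSymmetricSquare`). Those that commute with a subgroup
of finite index of the Galois group are the Tate classes in the part `Sym² H^1(A) ⊗ Sym² H^1(A)` of
`H^4(A^4)`: they are Tate classes of **codimension two** on `A^4`, for all dimensions `g`.

**Theorem.** If these Tate classes have a common `ℚ`-form (there is a set `𝔻` of matrices over `ℚ` such
that for all `ℓ ≥ ℓ₀` the `ℚ_ℓ`-span of `𝔻` is the space of these endomorphisms), then the connected
`ℓ`-adic monodromy groups have a common `ℚ`-form, as in the conjecture of Mumford, Serre and Tate: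
there is an algebraic group `G ⊆ GSp(V, ψ)` over `ℚ`, given by a set `S` of polynomials over `ℚ`, such
that `G_{ℚ_ℓ}` is the identity component of the Zariski closure of `ρ ℓ (Γ')` for all primes
`ℓ ≥ ℓ₀` and all subgroups `Γ'` of finite index (all finite extensions of `F`).

So the conjecture, which is about the invariants of the monodromy groups in all tensor powers of
`V_ℓ`, follows from its consequence for the Tate classes of codimension two on `A^4`; in particular
it is enough that these are combinations of Hodge classes, or of any other rational classes.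

The proof. Let `𝔤` be the Lie algebra of the monodromy group over an algebraic closure `Ω` of `ℚ_ℓ`,
and let `𝔥` be the Lie algebra, defined over `ℚ`, of all infinitesimal similitudes of `V` that commute
with `E` and, on the tensors with two indices, with `𝔻`. It contains `𝔤`. The map `y ↦ y ψ⁻¹` identifies
the infinitesimal isometries of `ψ` with the symmetric tensors, and the action of a similitude `x` on
tensors with the map `y ↦ x y - y x + c y`. So the infinitesimal isometries in `𝔤` are a space of
symmetric tensors that is stable under the weak Hodge elements, therefore under the Galois group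
(over a finite extension), so it is the image of an equivariant projection, which commutes with `𝔥`.
It follows that `𝔤` is an **ideal** of `𝔥`. The Lie algebra `𝔤` contains the replicas of its elements,
and its trace form is nondegenerate. Let `x` be in `𝔥` and let `y` be in `𝔤` such that `z = x - y` is
orthogonal to `𝔤`. Since `𝔤` is an ideal, the brackets of `z` with `𝔤` are in `𝔤` and orthogonal to `𝔤`,
so they vanish, and `z` commutes with the Galois group (over a finite extension). So `𝔥` and `𝔤` have
the same derived algebra, and `𝔤` is the sum of its derived algebra and its centre. So `𝔤` has a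
`ℚ`-form which does not depend on `ℓ`. The ideal of the connected monodromy group consists of the
polynomials all of whose derivatives along `𝔤` vanish at `1`, as in `FormFromMiddle`; so it is generated
by polynomials over `ℚ`.
-/

namespace Pool.Agent.Results.MP_e965d0_ag.FormFromSymmetricSquare

open Pool.Agent.W528.ZC Pool.Agent.P8H28.QF Pool.Agent.P8H28.QS

/-- The conjecture of Mumford, Serre and Tate for `A` follows from its consequence for the Tate
classes in `Sym² H^1(A) ⊗ Sym² H^1(A)`, a part of `H^4(A^4)`. -/
theorem result {ι : Type} [Fintype ι] [DecidableEq ι]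
    (ψ : Matrix ι ι ℚ) (halt : ψ.transpose = -ψ) (hψ : IsUnit ψ.det) (E : Set (Matrix ι ι ℚ))
    {Γ : Type} [Group Γ] (ρ : ∀ (ℓ : ℕ) [Fact ℓ.Prime], Γ →* Matrix ι ι ℚ_[ℓ])
    (χ : ∀ (ℓ : ℕ) [Fact ℓ.Prime], Γ →* ℚ_[ℓ]) (ℓ₀ : ℕ)
    (known : ∀ (ℓ : ℕ) [Fact ℓ.Prime], ℓ₀ ≤ ℓ →
      Known (AlgebraicClosure ℚ_[ℓ]) (ρ ℓ) (χ ℓ) (mapQ ℚ_[ℓ] ψ) (mapQ ℚ_[ℓ] '' E))
    (bogomolov : ∀ (ℓ : ℕ) [Fact ℓ.Prime], ℓ₀ ≤ ℓ → ∀ c : AlgebraicClosure ℚ_[ℓ], c ≠ 0 →
      InIdentityComponent (ρ ℓ) (c • (1 : Matrix ι ι (AlgebraicClosure ℚ_[ℓ]))))
    (semisimple : ∀ (ℓ : ℕ) [Fact ℓ.Prime], ℓ₀ ≤ ℓ → SemiM (tensRep 2 (ρ ℓ)))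
    (centre : SelfAdjointCentre ψ E ∨ ∃ C : Set (Matrix ι ι ℚ),
      ∀ (ℓ : ℕ) [Fact ℓ.Prime], ℓ₀ ≤ ℓ → IsFormOfCentre (AlgebraicClosure ℚ_[ℓ]) (ρ ℓ) C)
    (square : ∃ 𝔻 : Set (Matrix (Fin 2 → ι) (Fin 2 → ι) ℚ),
      ∀ (ℓ : ℕ) [Fact ℓ.Prime], ℓ₀ ≤ ℓ → IsFormOfSymmetricSquare (ρ ℓ) 𝔻) :
    ∃ S : Set (MvPolynomial (ι × ι) ℚ), ∀ (ℓ : ℕ) [Fact ℓ.Prime], ℓ₀ ≤ ℓ →
      ∀ Γ' : Subgroup Γ, Γ'.FiniteIndex → ∀ x : Matrix ι ι (AlgebraicClosure ℚ_[ℓ]),
        (InIdentityComponent ((ρ ℓ).comp Γ'.subtype) x ↔ IsZeroOf S x) :=
  form_allS halt hψ known bogomolov semisimple centre square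

end Pool.Agent.Results.MP_e965d0_ag.FormFromSymmetricSquare
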