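import Pool.Agent.P8H32.HQ.Seq
import Pool.Agent.N24.RW.All
import Pool.Agent.N24.KM.All

/-!
# Tate classes at EVERY prime number and the common `ℚ`-form of the monodromy groups for the products of
# hyperelliptic Jacobians with coefficients from arbitrary sequences, for almost all multipliers: one
# exceptional set for all number fields and all affine families

Let `L` be a number field, `n i ≥ 7`, `i < m`, odd numbers, and let `A` be a matrix with coefficients in the
ring of integers of `L` whose rows are linearly independent (`FullRank`), and `B` a vector. For an integral
vector `c` let `f i` be the monic polynomials of the degrees `n i` the coefficients of which are the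
coordinates of `A c + B` (`member`), and let `J i` be the Jacobians of the curves `y ^ 2 = f i (x)`, of
dimension `(n i - 1) / 2`. Let `Z` be any pure motive over `L`; we use only the characteristic polynomials
of its Frobenius elements and ONE lattice `τ` over `ℤ_2`.

`EveryPrime` (a definition of the starting result `MP_640417_ag.HyperellipticEveryPrime`) means: the `f i`
are separable, and for EVERY prime number `ℓ`, for each representation over `ℚ_ℓ` with the properties of the
rational Tate module of `A = ∏ J i` (Frobenius polynomials, Weil pairing, semisimplicity), all Tate classes
on all powers `A ^ k`, over all finite extensions of `L`, with values in the realization of `Z (c)` are zero in odd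
degrees, and in even degrees they are linear combinations of products of Tate classes of degree two on
`A ^ k` and Tate classes of `Z` (`ProductsWith`). The Tate classes of degree two on abelian varieties come from
endomorphisms and the polarization (Faltings), and the connected `ℓ`-adic monodromy group is
reductive and contains the homotheties, so it is the group of the elements of `GSp` which fix, up to the
multiplier, the Tate classes on the powers of `A`: for EVERY `ℓ` it is the identity component of the
Lefschetz group, which consists of the similitudes of the polarization that commute with the
endomorphisms. This is an algebraic group over `ℚ` which does not depend on `ℓ`: the common `ℚ`-form in the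
conjecture of Mumford, Serre and Tate, here for all `ℓ` and not only for large `ℓ`. (This
translation is well known and it is not formalized.)

A sequence `c_0, c_1, …` of vectors in `ℤ ^ ι` (`ι` a finite set) is called good (`GoodSequence`) if there is
ONE set `E` of indices of natural density zero, such that for ALL number fields `L`, ALL tuples of odd
degrees `n i ≥ 7`, ALL affine families `A c + B` of full rank over the ring of integers of `L` and ALL lattices
`τ`, the statement `EveryPrime` is true for the tuple `f` with the coefficients `A c_t + B` and `τ`, for all but
finitely many `t ∉ E`.

**Theorem.**
1. Let `f_{i,0}, f_{i,1}, …` (`i ∈ ι`) be functions which satisfy the hypothesis of Koksma's theorem on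
   `[a_i, b_i]` (`Koksma`). Then `c_n = (⌊f_{i,n}(α_i)⌋)_i` is good for almost all `α` with
   `a_i ≤ α_i ≤ b_i`.
2. Let `a_{i,0}, a_{i,1}, …` (`i ∈ ι`) be ANY sequences of real numbers with mutual distances at least
   `δ > 0`, for example any sequences of different integers (`n!`, `2 ^ n`, any enumeration of any
   infinite set of integers or of primes), and possibly all the same. Then `c_n = (⌊a_{i,n} α_i⌋)_i` is
   good for almost all `α`.
3. Let `k_0, k_1, …` be ANY sequence of different natural numbers, and `ξ_i ≠ 0`. Then
   `c_n = (⌊ξ_i α_i ^ k_n⌋)_i` is good for almost all `α` with all `α_i > 1`.

For example for almost all `(α_0, …, α_6)` one can take the Jacobian threefolds of the curves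
`y² = x⁷ + ⌊n! α_6⌋ x⁶ + … + ⌊n! α_1⌋ x + ⌊n! α_0⌋` over all number fields, apart from a set of `n` of density zero
which does not depend on the number field `L` and on the motive `Z`, and finitely many more.

The starting result treats, for one number field `K` and the family of all tuples over `K` (all coefficients
are free), 100 percent of the tuples in equidistributed finite sets of tuples, for instance boxes. New is that
the sequences of vectors can be arbitrarily sparse, and that there is one set `E` for all number fields and all
families.

Proof. For a prime `p` and a homomorphism of the ring of integers of `L` to `ℤ/p` the proportion of the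
vectors modulo `p` for which the tuple `f` modulo `p` has a prescribed type of factorization (irreducible, or
one quadratic factor and linear factors) is at least a positive constant, if `A` is surjective modulo `p`. So the set
of the vectors which do not have this type modulo any such `p` is pronull. By the theorem of Koksma in several
variables (project KM of the starting library) almost all metric sequences are in a given pronull set only for
indices of density zero. Finitely many types give the large Galois groups and the independence
which are needed for the starting theorem (`Pool.Agent.N197`). There are only countably many number fields up to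
isomorphism, matrices `A`, `B` and conditions, and a diagonal argument gives one set `E`.
-/

set_option autoImplicit false

namespace Pool.Agent.Results.MP_e965d0_ag.MetricSequences

open MeasureTheory Filter Topology
open Pool.Agent.P8H32.HQ (Dt BadD badD_null GoodSequence goodSequence_of)
open Pool.Agent.N24.KM (Koksma)

theorem result (ι : Type) [Fintype ι] :
    (∀ (a b : ι → ℝ) (f : ι → ℕ → ℝ → ℝ), (∀ i, a i < b i) → (∀ i, Koksma (a i) (b i) (f i)) →
      ∀ᵐ α : ι → ℝ, (∀ i, α i ∈ Set.Icc (a i) (b i)) → GoodSequence (fun n i => ⌊f i n (α i)⌋)) ∧
    (∀ (a : ι → ℕ → ℝ) (δ : ℝ), 0 < δ → (∀ i m n, m ≠ n → δ ≤ |a i m - a i n|) →
      ∀ᵐ α : ι → ℝ, GoodSequence (fun n i => ⌊a i n * α i⌋)) ∧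
    (∀ (k : ℕ → ℕ) (ξ : ι → ℝ), Function.Injective k → (∀ i, ξ i ≠ 0) →
      ∀ᵐ α : ι → ℝ, (∀ i, 1 < α i) → GoodSequence (fun n i => ⌊ξ i * α i ^ k n⌋)) :=
  Pool.Agent.N18.KM.parts Pool.Agent.N24.KM.main (κ := Dt ι) BadD
    (fun x => badD_null x) GoodSequence fun _ hc => goodSequence_of hc

end Pool.Agent.Results.MP_e965d0_ag.MetricSequences
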