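import Pool.Agent.P8H32.HQ.Seq
import Pool.Agent.N24.RW.All

/-!
# Tate classes at EVERY prime number and the common `ℚ`-form of the monodromy groups for the products of
# hyperelliptic Jacobians with coefficients from random orbits of thin groups: one exceptional set of times
# for all number fields and all affine families

Let `L` be a number field, `n i ≥ 7`, `i < m`, odd numbers, and let `A` be a matrix with coefficients in the
ring of integers of `L` whose rows are linearly independent (`FullRank`), and `B` a vector. For an integral
vector `c` let `f i` be the monic polynomials of the degrees `n i` the coefficients of which are the
coordinates of `A c + B` (`member`), and let `J i` be the Jacobians of the curves `y ^ 2 = f i (x)`, of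
dimension `(n i - 1) / 2`. Let `Z` be any pure motive over `L`; we use only the characteristic polynomials
of its Frobenius elements and ONE lattice `τ` over `ℤ_2`.

`EveryPrime` (a definition of the starting result `MP_640417_ag.HyperellipticEveryPrime`) means: the `f i`
are separable, and for EVERY prime number `ℓ`, for each representation over `ℚ_ℓ` with the properties of the
rational Tate module of `A = ∏ J i` (Frobenius polynomials, Weil pairing, semisimplicity), all Tate classes
on all powers `A ^ k`, over all finite extensions of `L`, with values in the realization of `Z (c)` are zero in odd
degrees, and in even degrees they are linear combinations of products of Tate classes of degree two on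
`A ^ k` and Tate classes of `Z` (`ProductsWith`). The Tate classes of degree two on abelian varieties come from
endomorphisms and the polarization (Faltings), and the connected `ℓ`-adic monodromy group is
reductive and contains the homotheties, so it is the group of the elements of `GSp` which fix, up to the
multiplier, the Tate classes on the powers of `A`: for EVERY `ℓ` it is the identity component of the
Lefschetz group, which consists of the similitudes of the polarization that commute with the
endomorphisms. This is an algebraic group over `ℚ` which does not depend on `ℓ`: the common `ℚ`-form in the
conjecture of Mumford, Serre and Tate, here for all `ℓ` and not only for large `ℓ`. (This
translation is well known and it is not formalized.)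

**Theorem.** Let `W` be a finite family `s_0, …, s_M` of matrices in `SL_r(ℤ)`, `r ≥ 2`, which generates
`SL_r(ℤ/q)` for all `q` prime to some `q₀` (by strong approximation this is so for every finite set of matrices
which generates a Zariski dense subgroup, for example a thin one), let `w 0, w 1, …` be independent uniformly
distributed indices, and `c_t = s_(w (t-1)) ⋯ s_(w 0) v` (`orb`). For almost every word `w` and every vector
`v ≠ 0` there is ONE set `E` of times of density zero such that for ALL number fields `L`, ALL
tuples of odd degrees `n i ≥ 7`, ALL affine families `A c + B` of full rank over the ring of integers of `L` and
ALL lattices `τ`, the statement `EveryPrime` is true for the tuple `f` with the coefficients `A c_t + B` and `τ`,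
for all but finitely many `t` outside `E` (`GoodSequence`).

So for all number fields `L` and all families the conclusion of the conjecture holds (for all `ℓ`) for the
products of the Jacobians, for all but finitely many times `t` outside of `E`. The starting result treats, for
one number field `K` and the family of all tuples over `K` (all coefficients are free), 100 percent of the
tuples in equidistributed finite sets of tuples, for instance boxes. An orbit of a thin group is a very sparse
set of vectors, so theorems about 100 percent of the tuples in boxes say nothing about it. New is also that there
is one set `E` for all number fields and all families.

Proof. For a prime `p` and a homomorphism of the ring of integers of `L` to `ℤ/p` the proportion of the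
vectors modulo `p` for which the tuple `f` modulo `p` has a prescribed type of factorization (irreducible, or
one quadratic factor and linear factors) is at least a positive constant, if `A` is surjective modulo `p`. There
are infinitely many such `p`, so the set of the vectors which do not have this type modulo any of them is
pronull. Random orbits are in a pronull set only at times of density zero (starting library, project RW). Finitely many types give the large Galois groups and the independence
which are needed for the starting theorem (`Pool.Agent.N197`). There are only countably many number fields up to
isomorphism, matrices `A`, `B` and conditions, and a diagonal argument gives one set `E`.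
-/

set_option autoImplicit false

namespace Pool.Agent.Results.MP_e965d0_ag.RandomOrbits

open MeasureTheory Filter Topology
open Pool.Agent.N24.RW
open Pool.Agent.P8H32.HQ (Dt BadD badD_null GoodSequence goodSequence_of)

theorem result (ι : Type) [Fintype ι] [DecidableEq ι] (hι : 2 ≤ Fintype.card ι) (W : Walk ι) :
    ∀ᵐ w ∂(words W.m), ∀ v : ι → ℤ, v ≠ 0 → GoodSequence (orb W v w) := by
  refine ae_all_iff.2 fun v => ?_
  by_cases hv : v = 0
  · exact ae_of_all _ fun w h => absurd hv h
  have h1 : ∀ᵐ w ∂(words W.m), ∀ x : Dt ι, Pool.Agent.N24.KM.Rarely (orb W v w) (BadD x) :=
    ae_all_iff.2 fun x => main ι hι W v hv _ (badD_null x)
  filter_upwards [h1] with w hw _
  exact goodSequence_of hw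

end Pool.Agent.Results.MP_e965d0_ag.RandomOrbits
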