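import Pool.Agent.P8H32.HQ.Thin

/-!
# Tate classes at EVERY prime number and the common `ℚ`-form of the monodromy groups for the products of
# hyperelliptic Jacobians with coefficients from thin deterministic sequences, also at prime arguments: one
# exceptional set for all number fields and all affine families

Let `L` be a number field, `n i ≥ 7`, `i < m`, odd numbers, and let `A` be a matrix with coefficients in the
ring of integers of `L` whose rows are linearly independent (`FullRank`), and `B` a vector. For an integral
vector `c` let `f i` be the monic polynomials of the degrees `n i` the coefficients of which are the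
coordinates of `A c + B` (`member`), and let `J i` be the Jacobians of the curves `y ^ 2 = f i (x)`, of
dimension `(n i - 1) / 2`. Let `Z` be any pure motive over `L`; we use only the characteristic polynomials
of its Frobenius elements and ONE lattice `τ` over `ℤ_2`.

`EveryPrime` (a definition of the starting result `MP_640417_ag.HyperellipticEveryPrime`) means: the `f i`
are separable, and for EVERY prime number `ℓ`, for each representation over `ℚ_ℓ` with the properties of the
rational Tate module of `A = ∏ J i` (Frobenius polynomials, Weil pairing, semisimplicity), all Tate classes
on all powers `A ^ k`, over all finite extensions of `L`, with values in the realization of `Z (c)` are zero in odd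
degrees, and in even degrees they are linear combinations of products of Tate classes of degree two on
`A ^ k` and Tate classes of `Z` (`ProductsWith`). The Tate classes of degree two on abelian varieties come from
endomorphisms and the polarization (Faltings), and the connected `ℓ`-adic monodromy group is
reductive and contains the homotheties, so it is the group of the elements of `GSp` which fix, up to the
multiplier, the Tate classes on the powers of `A`: for EVERY `ℓ` it is the identity component of the
Lefschetz group, which consists of the similitudes of the polarization that commute with the
endomorphisms. This is an algebraic group over `ℚ` which does not depend on `ℓ`: the common `ℚ`-form in the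
conjecture of Mumford, Serre and Tate, here for all `ℓ` and not only for large `ℓ`. (This
translation is well known and it is not formalized.)

Let `z_0, z_1, z_2, …` be sequences of integers such that all finite subfamilies are uniformly distributed
modulo all `q`, along the sets `S₁ N ⊆ (N, 2 N]` and `S₂ N ⊆ (N, 2 N]`, `N → ∞` (`UD`). For example `S₁ N` and
`S₂ N` can be the sets of all integers and of all primes of `(N, 2 N]`, and `z_l(t) = ⌊P_l(t)⌋`, where the
`P_l(t) = ∑ a_x t ^ x` are generalised polynomials (finitely many real exponents, real coefficients) with
distinct leading exponents which are positive and not integers and have positive coefficients, such as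
`P_l(t) = t ^ (l + √2)`.

**Theorem.** (1) There is ONE set `E` of integers of density zero relative to the sets `S₁ N` and to the sets
`S₂ N`, such that for ALL `r`, ALL number fields `L`, ALL tuples of odd degrees `n i ≥ 7`, ALL affine families
`A c + B` of full rank over the ring of integers of `L` and ALL lattices `τ`, the statement `EveryPrime` is true for
the tuple `f` with the coefficients `A c + B`, `c = (z_0(t), …, z_(r-1)(t))`, and `τ`, for all but finitely many
integers `t` outside `E` (`GoodOutside`).

(2) The integer parts of generalised polynomials as above are uniformly distributed modulo all `q` along the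
integers and along the primes (starting library).

So for instance, for all number fields `L` and all motives `Z` over `L`, and all but finitely many primes `t`
outside of one set of primes of relative density zero, one can take the Jacobian threefold of the curve
`y² = x⁷ + ⌊t ^ (6 + √2)⌋ x⁶ + … + ⌊t ^ (1 + √2)⌋ x + ⌊t ^ √2⌋`.

The starting result `HyperellipticEveryPrime` treats, for one number field `K` and the family of all tuples
over `K` (all coefficients are free), 100 percent of the tuples in equidistributed finite sets of tuples, for
instance boxes. Here the tuples are on explicit curves in the space of coefficients, with one parameter `t`, which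
can be a prime number. There is one set `E` for all number fields and all families.

Proof. For a prime `p` and a homomorphism of the ring of integers of `L` to `ℤ/p` the proportion of the
vectors modulo `p` for which the tuple `f` modulo `p` has a prescribed type of factorization (irreducible, or
one quadratic factor and linear factors) is at least a positive constant, if `A` is surjective modulo `p`. So the set
of the vectors which do not have this type modulo any such `p` is pronull: modulo suitable `q` there are as few
exceptional residue classes as one likes, and by the uniform distribution modulo `q` the set of the exceptional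
`t` has density zero. Finitely many types give the large Galois groups and the independence
which are needed for the starting theorem (`Pool.Agent.N197`). There are only countably many number fields up to
isomorphism, matrices `A`, `B` and conditions, and a diagonal argument gives one set `E`.
-/

set_option autoImplicit false

namespace Pool.Agent.Results.MP_e965d0_ag.ThinSequences

open Pool.Agent.P8H32.HQ (GoodOutside thin_good)

/-- All finite subfamilies of the sequences `z 0, z 1, …` of integers are uniformly distributed modulo all
`q`, along the sets `S N`. -/
def UD (S : ℕ → Finset ℕ) (z : ℕ → ℕ → ℤ) : Prop :=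
  ∀ (r : ℕ) (σ : Fin r → ℕ), Function.Injective σ → ∀ q : ℕ, 1 ≤ q → ∀ ρ : Fin r → ℤ,
    Filter.Tendsto (fun N => ({t : ℕ | t ∈ S N ∧ ∀ i, (q : ℤ) ∣ z (σ i) t - ρ i}.ncard : ℝ) / (S N).card)
      Filter.atTop (nhds (1 / (q : ℝ) ^ r))

/-- `c` is the largest exponent of the generalised polynomial `∑ a_x t ^ x`; it is positive and not an
integer and has a positive coefficient. -/
def Leading (F : Finset ℝ) (a : ℝ → ℝ) (c : ℝ) : Prop :=
  c ∈ F ∧ (∀ x ∈ F, x ≤ c) ∧ 0 < c ∧ (∀ m : ℕ, c ≠ m) ∧ 0 < a c

/-- The integer parts of the values of the generalised polynomials `P_l(t) = ∑ a_x t ^ x`. -/
noncomputable def floors (F : ℕ → Finset ℝ) (a : ℕ → ℝ → ℝ) (l t : ℕ) : ℤ :=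
  ⌊∑ x ∈ F l, a l x * (t : ℝ) ^ x⌋

/-- `E` has density zero relative to the sets `S N`. -/
def NullIn (S : ℕ → Finset ℕ) (E : Set ℕ) : Prop :=
  ∀ ε : ℝ, 0 < ε → ∃ N₀ : ℕ, ∀ N : ℕ, N₀ ≤ N →
    ({t : ℕ | t ∈ S N ∧ t ∈ E}.ncard : ℝ) ≤ ε * (S N).card

theorem result :
    (∀ S₁ S₂ : ℕ → Finset ℕ, (∀ N, S₁ N ⊆ Finset.Ioc N (2 * N)) →
      (∀ N, S₂ N ⊆ Finset.Ioc N (2 * N)) → ∀ z : ℕ → ℕ → ℤ, UD S₁ z → UD S₂ z →
      ∃ E : Set ℕ, NullIn S₁ E ∧ NullIn S₂ E ∧
        ∀ r : ℕ, GoodOutside E (fun t (l : Fin r) => z l t)) ∧
    (∀ (F : ℕ → Finset ℝ) (a : ℕ → ℝ → ℝ) (c : ℕ → ℝ), (∀ l, Leading (F l) (a l) (c l)) →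
      Function.Injective c → UD (fun N => Finset.Ioc N (2 * N)) (floors F a) ∧
        UD (fun N => (Finset.Ioc N (2 * N)).filter Nat.Prime) (floors F a)) :=
  ⟨fun _ _ hS₁ hS₂ _ h₁ h₂ => thin_good hS₁ hS₂ h₁ h₂,
    fun _ _ _ hF hc => Pool.Agent.N924.TH.ud_fl hF hc⟩

end Pool.Agent.Results.MP_e965d0_ag.ThinSequences
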